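import Pool.Agent.W836.SH.Stm

/-! Project SH (helper836), subtask SH-MAIN. -/

set_option autoImplicit false

open scoped Classical

namespace Pool.Agent.W766.SH

open Pool.Agent.W836.SH

theorem abs_le_one {ι : Type} {V : Finset (ι → ℝ)} (h : TS V) {v : ι → ℝ} (hv : v ∈ V) (i : ι) :
    |v i| ≤ 1 := by
  have h1 := h 1 (fun _ => i) (fun _ => v) (fun _ => hv)
  simpa using h1

theorem main (h1 : S_BASE) (h2 : S_AX) (h3 : S_CNT) (h4 : S_TSPR) : S_MAIN := by
  intro ι I
  induction hn : I.card using Nat.strong_induction_on generalizing I with
  | _ n ih =>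
    intro V t hTS hsupp ht hval
    by_cases hB : ∃ i ∈ I, t i ≠ 0 ∧ t i ≠ 1 / 2
    · have hne : (I.filter (fun i => t i ≠ 0 ∧ t i ≠ 1 / 2)).Nonempty := by
        obtain ⟨i, hi, h⟩ := hB
        exact ⟨i, Finset.mem_filter.2 ⟨hi, h⟩⟩
      obtain ⟨s, hs, hmax⟩ := Finset.exists_max_image _ (fun i => |t i - 1 / 2|) hne
      rw [Finset.mem_filter] at hs
      obtain ⟨hsI, hs0, hs2⟩ := hs
      have htwo : ∀ v ∈ V, v s = t s - 1 ∨ v s = t s := by
        intro v hv
        rcases hval v hv s hsI with h | h | h
        · exact Or.inl h
        · exact Or.inr h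
        · exfalso
          have h5 := (abs_le.1 (abs_le_one hTS hv s)).2
          have h6 : 0 < t s := lt_of_le_of_ne (ht s).1 (Ne.symm hs0)
          linarith
      have hcnt := h3 ι V I s (t s - 1) (t s) hsI hsupp htwo
      have hcard : (I.erase s).card = n - 1 := by rw [Finset.card_erase_of_mem hsI, hn]
      have hpos : 1 ≤ n := by rw [← hn]; exact Finset.card_pos.2 ⟨s, hsI⟩
      have hA : (pr (I.erase s) V).card ≤ (n - 1) ^ 2 + (n - 1) + 1 := by
        refine ih (n - 1) (by omega) (I.erase s) hcard (pr (I.erase s) V) t
          (h4 ι V (I.erase s) s hTS).1 ?_ ht ?_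
        · intro v hv i hi
          unfold pr at hv
          obtain ⟨w, _, rfl⟩ := Finset.mem_image.1 hv
          unfold res
          rw [if_neg hi]
        · intro v hv i hi
          unfold pr at hv
          obtain ⟨w, hw, rfl⟩ := Finset.mem_image.1 hv
          unfold res
          rw [if_pos hi]
          exact hval w hw i (Finset.mem_of_mem_erase hi)
      have hX : (XX s (I.erase s) V).card ≤ 2 * (n - 1) + 2 := by
        rw [← hcard]
        refine h2 ι (I.erase s) V t s (Finset.notMem_erase s I) hTS ht hs0 hs2 ?_ ?_
        · intro v hv i hi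
          rw [Finset.insert_erase hsI] at hi
          exact hval v hv i hi
        · intro i hi hi0
          by_cases h : t i = 1 / 2
          · rw [h, sub_self, abs_zero]
            exact abs_nonneg _
          · exact hmax i (Finset.mem_filter.2 ⟨Finset.mem_of_mem_erase hi, hi0, h⟩)
      obtain ⟨m, rfl⟩ : ∃ m, n = m + 1 := ⟨n - 1, by omega⟩
      rw [Nat.add_sub_cancel] at hA hX
      nlinarith
    · push Not at hB
      have hRH : I.filter (fun i => t i = 0) ∪ I.filter (fun i => t i = 1 / 2) = I := by
        ext i
        rw [Finset.mem_union, Finset.mem_filter, Finset.mem_filter]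
        constructor
        · rintro (h | h)
          · exact h.1
          · exact h.1
        · intro hi
          by_cases h : t i = 0
          · exact Or.inl ⟨hi, h⟩
          · exact Or.inr ⟨hi, hB i hi h⟩
      have hdis : Disjoint (I.filter (fun i => t i = 0)) (I.filter (fun i => t i = 1 / 2)) := by
        rw [Finset.disjoint_left]
        intro i hi hi'
        have e1 := (Finset.mem_filter.1 hi).2
        have e2 := (Finset.mem_filter.1 hi').2
        rw [e1] at e2
        norm_num at e2
      have hc : (I.filter (fun i => t i = 0)).card + (I.filter (fun i => t i = 1 / 2)).card = n := by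
        rw [← Finset.card_union_of_disjoint hdis, hRH, hn]
      have h5 := h1 ι (I.filter (fun i => t i = 0)) (I.filter (fun i => t i = 1 / 2)) V hdis hTS
        ?_ ?_ ?_
      · rw [hc] at h5
        exact h5
      · intro v hv i hi
        rw [Finset.mem_filter] at hi
        rcases hval v hv i hi.1 with h | h | h
        · right; right; rw [h, hi.2]; ring
        · left; rw [h, hi.2]
        · right; left; rw [h, hi.2]; ring
      · intro v hv i hi
        rw [Finset.mem_filter] at hi
        rcases hval v hv i hi.1 with h | h | h
        · right; rw [h, hi.2]; ring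
        · left; rw [h, hi.2]
        · exfalso
          have h6 := (abs_le.1 (abs_le_one hTS hv i)).2
          rw [h, hi.2] at h6
          norm_num at h6
      · rw [hRH]
        exact hsupp

end Pool.Agent.W766.SH
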